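import Pool.Agent.helper76.UF.Spec

set_option autoImplicit false

/-!
# Row uf:UNU (MP_37e5fa_nt): the element nu = b(A) B + (x + b x)
-/

namespace Pool.Agent.UF

open Finset Polynomial NumberField

/-- integral combinations of odd powers of `x` -/
def UNU_S {R : Type} [CommRing R] (N : ℕ) (x : R) : AddSubgroup R where
  carrier := {y | ∃ d : ℕ → ℤ, y = ∑ i ∈ range N, (d i : R) * x ^ i ∧ ∀ i, Even i → d i = 0}
  zero_mem' := ⟨fun _ => 0, by simp, fun _ _ => rfl⟩
  add_mem' := by
    rintro a b ⟨d, rfl, hd⟩ ⟨d', rfl, hd'⟩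
    refine ⟨fun i => d i + d' i, ?_, fun i hi => by
      show d i + d' i = 0
      rw [hd i hi, hd' i hi, add_zero]⟩
    rw [← Finset.sum_add_distrib]
    refine Finset.sum_congr rfl fun i _ => ?_
    push_cast
    ring
  neg_mem' := by
    rintro a ⟨d, rfl, hd⟩
    refine ⟨fun i => - d i, ?_, fun i hi => by
      show - d i = 0
      rw [hd i hi, neg_zero]⟩
    rw [← Finset.sum_neg_distrib]
    refine Finset.sum_congr rfl fun i _ => ?_
    push_cast
    ring

theorem UNU_pow {R : Type} [CommRing R] {N : ℕ} (hN : Even N) (hN0 : 0 < N) {x : R} (hx : x ^ N = -1)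
    (k : ℕ) : ¬ Even k → x ^ k ∈ UNU_S N x := by
  induction k using Nat.strong_induction_on with
  | _ k ih =>
    intro hk
    rcases lt_or_ge k N with h | h
    · refine ⟨fun i => if i = k then 1 else 0, ?_, fun i hi => ?_⟩
      · rw [Finset.sum_eq_single k]
        · simp
        · intro i _ hi
          simp [hi]
        · intro hk'
          exact absurd (Finset.mem_range.2 h) hk'
      · have : i ≠ k := fun h' => hk (h' ▸ hi)
        simp [this]
    · have e : x ^ k = - x ^ (k - N) := by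
        have h1 : x ^ k = x ^ N * x ^ (k - N) := by rw [← pow_add, Nat.add_sub_cancel' h]
        rw [h1, hx, neg_one_mul]
      rw [e]
      refine AddSubgroup.neg_mem _ (ih (k - N) (by omega) ?_)
      intro h2
      apply hk
      have h3 := h2.add hN
      rwa [Nat.sub_add_cancel h] at h3

theorem UNU : UNU_stmt := by
  intro m R _ x b hm hBas hbar j e c A B hj he hA hB h5 h2
  obtain ⟨hxN, _⟩ := hBas
  obtain ⟨hbx, hbb⟩ := hbar
  set N : ℕ := 2 ^ m with hN
  have hNe : Even N := (Nat.even_pow.2 ⟨even_two, by omega⟩)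
  have hN0 : 0 < N := by positivity
  have hx2 : x ^ (2 * N) = 1 := by rw [mul_comm, pow_mul, hxN]; norm_num
  have hbxp : b x = x ^ (2 * N - 1) := by
    have h3 : x ^ (2 * N) = x ^ (2 * N - 1) * x := by
      rw [← pow_succ]
      congr 1
      omega
    calc b x = b x * x ^ (2 * N) := by rw [hx2, mul_one]
      _ = (b x * x) * x ^ (2 * N - 1) := by rw [h3]; ring
      _ = x ^ (2 * N - 1) := by rw [hbx, one_mul]
  have hodd : ¬ Even (2 * N - 1) := by
    rw [Nat.not_even_iff]
    omega
  have hbA : b A = b x ^ j * (1 + b x ^ e) := by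
    rw [hA, map_mul, map_pow, map_add, map_one, map_pow]
  have hbbA : b (b A) = A := hbb A
  have hbbx : b (b x) = x := hbb x
  have hej : b x ^ j * x ^ j = 1 := by rw [← mul_pow, hbx, one_pow]
  have hee : b x ^ e * x ^ e = 1 := by rw [← mul_pow, hbx, one_pow]
  have hAA : A * b A = 2 + (x ^ e + b x ^ e) := by
    rw [hbA, hA]
    linear_combination (1 + x ^ e) * (1 + b x ^ e) * hej + hee
  -- the odd part
  have hS : b A * B ∈ UNU_S N x := by
    rw [hbA, hB, Finset.mul_sum]
    refine AddSubgroup.sum_mem _ fun i hi => ?_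
    obtain ⟨_, hi2⟩ := Finset.mem_filter.1 hi
    have e1 : b x ^ j * (1 + b x ^ e) * ((c i : R) * x ^ i) =
        (c i) • (x ^ ((2 * N - 1) * j + i) + x ^ ((2 * N - 1) * j + (2 * N - 1) * e + i)) := by
      rw [zsmul_eq_mul, hbxp]
      ring
    rw [e1]
    refine AddSubgroup.zsmul_mem _ (AddSubgroup.add_mem _ ?_ ?_) _
    · refine UNU_pow hNe hN0 hxN _ ?_
      rw [Nat.even_add]
      intro h3
      exact hi2 (h3.1 (hj.mul_left _))
    · refine UNU_pow hNe hN0 hxN _ ?_
      rw [Nat.even_add]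
      intro h3
      exact hi2 (h3.1 ((hj.mul_left _).add (he.mul_left _)))
  have hx1 : x ∈ UNU_S N x := by
    have := UNU_pow hNe hN0 hxN 1 (by decide)
    rwa [pow_one] at this
  have hb1 : b x ∈ UNU_S N x := by
    have h3 := UNU_pow hNe hN0 hxN (2 * N - 1) hodd
    rw [hbxp]
    exact h3
  obtain ⟨d, hd1, hd2⟩ := AddSubgroup.add_mem _ hS (AddSubgroup.add_mem _ hx1 hb1)
  refine ⟨b A * B + (x + b x), d, hd1, hd2, ?_, ?_⟩
  · rw [map_add, map_mul, map_add, hbbA, hbbx]
    linear_combination h2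
  · rw [map_add, map_mul, map_add, hbbA, hbbx]
    have hC : A * b B = -(2 * (x + b x)) - b A * B := by linear_combination h2
    have hBB : B * b B = 3 - (x ^ e + b x ^ e) := by linear_combination h5 - hAA
    have hCC : (b A * B) * (A * b B) = (2 + (x ^ e + b x ^ e)) * (3 - (x ^ e + b x ^ e)) := by
      rw [← hAA, ← hBB]
      ring
    have e2 : x ^ (2 * e) = x ^ e * x ^ e := by rw [two_mul, pow_add]
    have e3 : b x ^ (2 * e) = b x ^ e * b x ^ e := by rw [two_mul, pow_add]
    rw [e2, e3]
    linear_combination hCC + (x + b x) * h2 - 2 * hee - 2 * hbx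

end Pool.Agent.UF
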